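import Mathlib

/-!
# PQ/SPL: the Lagrangian of a divisor

Reduction of the binary quadratic form `(u, v, w)` over `F[x]` of discriminant `v ^ 2 - u w = f`, and the
Lagrangian of the form `(x, y) ↦ ` (coefficient of `x ^ (2 g)` of `u x y` modulo `f`).
-/

set_option autoImplicit false

namespace Pool.Agent.N488.PQ

open Polynomial

variable {F : Type} [Field F]

/-- polynomials of odd degree are not squares -/
theorem not_sq_of_odd {g : ℕ} {f : F[X]} (hf : f.natDegree = 2 * g + 1) (v : F[X]) : v ^ 2 ≠ f := by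
  intro h
  have := congrArg natDegree h
  rw [natDegree_pow, hf] at this
  omega

/-- a pair `r, s` with Gram matrix `(u, v, w)` -/
structure St (f h r s u v w : F[X]) : Prop where
  rr : f ∣ h * r ^ 2 - u
  rs : f ∣ h * r * s - v
  ss : f ∣ h * s ^ 2 - w
  disc : v ^ 2 - u * w = f

theorem St.swap {f h r s u v w : F[X]} (H : St f h r s u v w) : St f h s (-r) w (-v) u := by
  refine ⟨H.ss, ?_, ?_, ?_⟩
  · have e : h * s * -r - -v = -(h * r * s - v) := by ring
    rw [e, dvd_neg]
    exact H.rs
  · have e : h * (-r) ^ 2 - u = h * r ^ 2 - u := by ring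
    rw [e]
    exact H.rr
  · rw [← H.disc]
    ring

theorem St.shift {f h r s u v w : F[X]} (H : St f h r s u v w) (q : F[X]) :
    St f h r (s - q * r) u (v - q * u) (w - 2 * q * v + q ^ 2 * u) := by
  refine ⟨H.rr, ?_, ?_, ?_⟩
  · have e : h * r * (s - q * r) - (v - q * u) = (h * r * s - v) - q * (h * r ^ 2 - u) := by ring
    rw [e]
    exact dvd_sub H.rs (H.rr.mul_left q)
  · have e : h * (s - q * r) ^ 2 - (w - 2 * q * v + q ^ 2 * u) =
        (h * s ^ 2 - w) - 2 * q * (h * r * s - v) + q ^ 2 * (h * r ^ 2 - u) := by ring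
    rw [e]
    exact dvd_add (dvd_sub H.ss (H.rs.mul_left _)) (H.rr.mul_left _)
  · rw [← H.disc]
    ring

theorem reduce {f h : F[X]} (hf : ∀ v : F[X], v ^ 2 ≠ f) : ∀ (n : ℕ) (r s u v w : F[X]),
    u.natDegree = n → St f h r s u v w →
    ∃ r s u v w : F[X], St f h r s u v w ∧ u ≠ 0 ∧ w ≠ 0 ∧ v.degree < u.degree ∧
      u.natDegree ≤ w.natDegree := by
  intro n
  induction n using Nat.strong_induction_on with
  | _ n ih =>
    intro r s u v w hu H
    have hu0 : u ≠ 0 := by
      rintro rfl
      apply hf v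
      have := H.disc
      rwa [zero_mul, sub_zero] at this
    have H' := H.shift (v / u)
    have hv : v - v / u * u = v % u := by
      have := EuclideanDomain.div_add_mod v u
      linear_combination -this
    rw [hv] at H'
    generalize w - 2 * (v / u) * v + (v / u) ^ 2 * u = w' at H'
    have hw0 : w' ≠ 0 := by
      rintro rfl
      apply hf (v % u)
      have := H'.disc
      rwa [mul_zero, sub_zero] at this
    by_cases hlt : w'.natDegree < u.natDegree
    · exact ih w'.natDegree (by omega) _ _ _ _ _ rfl H'.swap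
    · exact ⟨_, _, _, _, _, H', hu0, hw0, Polynomial.degree_mod_lt v hu0, not_lt.1 hlt⟩

theorem start {f u v w : F[X]} (hc : IsCoprime u f) (h : v ^ 2 - u * w = f) :
    ∃ s : F[X], St f u 1 s u v w := by
  obtain ⟨a, b, hab⟩ := hc
  refine ⟨v * a, by simp, ⟨-(v * b), ?_⟩, ⟨u * a ^ 2 + w * (b ^ 2 * f - 2 * b), ?_⟩, h⟩
  · linear_combination v * hab
  · have h1 : u * a = 1 - b * f := by linear_combination hab
    have h2 : u * (v * a) ^ 2 = u * a ^ 2 * f + w * (u * a) ^ 2 := by
      linear_combination u * a ^ 2 * h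
    rw [h2, h1]
    ring

/-- the coefficient of `x ^ (2 g)` of the remainder modulo `f` -/
theorem tp_zero {g : ℕ} {f P Q : F[X]} (hf : f.Monic) (hd : f.natDegree = 2 * g + 1)
    (h : f ∣ P - Q) (hQ : Q.degree < (2 * g : ℕ)) : (P %ₘ f).coeff (2 * g) = 0 := by
  rw [modByMonic_eq_of_dvd_sub hf h, (modByMonic_eq_self_iff hf).2]
  · exact coeff_eq_zero_of_degree_lt hQ
  · refine hQ.trans ?_
    rw [degree_eq_natDegree hf.ne_zero, hd]
    exact_mod_cast Nat.lt_succ_self _

theorem mul_lt {p q : F[X]} {m n : ℕ} (hp : p.degree < m) (hq : q.degree < n) :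
    (p * q).degree < (m + n - 1 : ℕ) := by
  by_cases hp0 : p = 0
  · rw [hp0, zero_mul, degree_zero]
    exact WithBot.bot_lt_coe _
  by_cases hq0 : q = 0
  · rw [hq0, mul_zero, degree_zero]
    exact WithBot.bot_lt_coe _
  rw [degree_eq_natDegree hp0] at hp
  rw [degree_eq_natDegree hq0] at hq
  rw [degree_mul, degree_eq_natDegree hp0, degree_eq_natDegree hq0]
  have h1 : p.natDegree < m := by exact_mod_cast hp
  have h2 : q.natDegree < n := by exact_mod_cast hq
  have h3 : p.natDegree + q.natDegree < m + n - 1 := by omega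
  exact_mod_cast h3

theorem lt_of_le {p : F[X]} {m n : ℕ} (hp : p.degree < m) (h : m ≤ n) : p.degree < n :=
  hp.trans_le (by exact_mod_cast h)

theorem lagrangian {g : ℕ} {f h r s u v w : F[X]} (hf : f.Monic) (hd : f.natDegree = 2 * g + 1)
    (H : St f h r s u v w) (hu : u ≠ 0) (hw : w ≠ 0) (hvu : v.degree < u.degree)
    (huw : u.natDegree ≤ w.natDegree) :
    ∃ z : Fin g → F[X], (∀ i j, ∃ Q : F[X], f ∣ h * z i * z j - Q ∧ Q.degree < (2 * g : ℕ)) ∧
      ∀ c : Fin g → F, f ∣ ∑ i, C (c i) * z i → c = 0 := by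
  -- degrees
  have hsum : u.natDegree + w.natDegree = 2 * g + 1 := by
    have h1 : (u * w).natDegree = u.natDegree + w.natDegree := natDegree_mul hu hw
    have h2 : u * w = -(f - v ^ 2) := by rw [← H.disc]; ring
    by_cases hv0 : v = 0
    · rw [hv0] at h2
      rw [← h1, h2, natDegree_neg]
      simpa using hd
    have h3 : v.natDegree < u.natDegree := natDegree_lt_natDegree hv0 hvu
    have h4 : f = -(u * w) + v ^ 2 := by rw [← H.disc]; ring
    rw [h4, natDegree_add_eq_left_of_natDegree_lt, natDegree_neg, h1] at hd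
    · exact hd
    · rw [natDegree_neg, h1, natDegree_pow]
      omega
  obtain ⟨m, hm⟩ : ∃ m, m = u.natDegree := ⟨_, rfl⟩
  have hmg : m ≤ g := by omega
  have hwm : w.natDegree = 2 * g + 1 - m := by omega
  have du : u.degree < (m + 1 : ℕ) := by
    rw [degree_eq_natDegree hu, ← hm]
    exact_mod_cast Nat.lt_succ_self _
  have dv : v.degree < (m : ℕ) := by
    rw [degree_eq_natDegree hu, ← hm] at hvu
    exact hvu
  have dw : w.degree < (2 * g + 2 - m : ℕ) := by
    rw [degree_eq_natDegree hw, hwm]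
    have : 2 * g + 1 - m < 2 * g + 2 - m := by omega
    exact_mod_cast this
  have dX : ∀ i : ℕ, (X ^ i : F[X]).degree < (i + 1 : ℕ) := by
    intro i
    rw [degree_X_pow]
    exact_mod_cast Nat.lt_succ_self _
  set k : ℕ := g - m / 2 with hk
  have hk2 : g - k = m / 2 := by omega
  refine ⟨fun i => if (i : ℕ) < k then X ^ (i : ℕ) * r else X ^ ((i : ℕ) - k) * s, ?_, ?_⟩
  · intro i j
    by_cases hi : (i : ℕ) < k <;> by_cases hj : (j : ℕ) < k
    · refine ⟨X ^ (i : ℕ) * X ^ (j : ℕ) * u, ?_, ?_⟩
      · simp only [if_pos hi, if_pos hj]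
        have e : h * (X ^ (i : ℕ) * r) * (X ^ (j : ℕ) * r) - X ^ (i : ℕ) * X ^ (j : ℕ) * u =
            X ^ (i : ℕ) * X ^ (j : ℕ) * (h * r ^ 2 - u) := by ring
        rw [e]
        exact H.rr.mul_left _
      · exact lt_of_le (mul_lt (mul_lt (dX i) (dX j)) du) (by omega)
    · refine ⟨X ^ (i : ℕ) * X ^ ((j : ℕ) - k) * v, ?_, ?_⟩
      · simp only [if_pos hi, if_neg hj]
        have e : h * (X ^ (i : ℕ) * r) * (X ^ ((j : ℕ) - k) * s) -
            X ^ (i : ℕ) * X ^ ((j : ℕ) - k) * v =
            X ^ (i : ℕ) * X ^ ((j : ℕ) - k) * (h * r * s - v) := by ring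
        rw [e]
        exact H.rs.mul_left _
      · have := j.isLt
        exact lt_of_le (mul_lt (mul_lt (dX i) (dX ((j : ℕ) - k))) dv) (by omega)
    · refine ⟨X ^ ((i : ℕ) - k) * X ^ (j : ℕ) * v, ?_, ?_⟩
      · simp only [if_neg hi, if_pos hj]
        have e : h * (X ^ ((i : ℕ) - k) * s) * (X ^ (j : ℕ) * r) -
            X ^ ((i : ℕ) - k) * X ^ (j : ℕ) * v =
            X ^ ((i : ℕ) - k) * X ^ (j : ℕ) * (h * r * s - v) := by ring
        rw [e]
        exact H.rs.mul_left _
      · have := i.isLt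
        exact lt_of_le (mul_lt (mul_lt (dX ((i : ℕ) - k)) (dX j)) dv) (by omega)
    · refine ⟨X ^ ((i : ℕ) - k) * X ^ ((j : ℕ) - k) * w, ?_, ?_⟩
      · simp only [if_neg hi, if_neg hj]
        have e : h * (X ^ ((i : ℕ) - k) * s) * (X ^ ((j : ℕ) - k) * s) -
            X ^ ((i : ℕ) - k) * X ^ ((j : ℕ) - k) * w =
            X ^ ((i : ℕ) - k) * X ^ ((j : ℕ) - k) * (h * s ^ 2 - w) := by ring
        rw [e]
        exact H.ss.mul_left _
      · have := i.isLt
        have := j.isLt
        exact lt_of_le (mul_lt (mul_lt (dX ((i : ℕ) - k)) (dX ((j : ℕ) - k))) dw) (by omega)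
  · intro c hc
    set a : F[X] := ∑ i : Fin g, if (i : ℕ) < k then C (c i) * X ^ (i : ℕ) else 0 with ha
    set b : F[X] := ∑ i : Fin g, if (i : ℕ) < k then 0 else C (c i) * X ^ ((i : ℕ) - k) with hb
    have hab : ∑ i : Fin g, C (c i) * (if (i : ℕ) < k then X ^ (i : ℕ) * r else
        X ^ ((i : ℕ) - k) * s) = a * r + b * s := by
      rw [ha, hb, Finset.sum_mul, Finset.sum_mul, ← Finset.sum_add_distrib]
      refine Finset.sum_congr rfl fun i _ => ?_
      split_ifs <;> ring
    rw [hab] at hc
    have da : a.degree < (k : ℕ) := by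
      rw [← mem_degreeLT]
      refine Submodule.sum_mem _ fun i _ => ?_
      split_ifs with hi
      · rw [mem_degreeLT]
        refine (degree_C_mul_X_pow_le _ _).trans_lt ?_
        exact_mod_cast hi
      · exact Submodule.zero_mem _
    have db : b.degree < (m / 2 : ℕ) := by
      rw [← mem_degreeLT]
      refine Submodule.sum_mem _ fun i _ => ?_
      split_ifs with hi
      · exact Submodule.zero_mem _
      · rw [mem_degreeLT]
        refine (degree_C_mul_X_pow_le _ _).trans_lt ?_
        have : (i : ℕ) - k < m / 2 := by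
          have := i.isLt
          omega
        exact_mod_cast this
    -- the value of the form
    have hP : f ∣ u * (a * a) + 2 * (v * (a * b)) + w * (b * b) := by
      have e : u * (a * a) + 2 * (v * (a * b)) + w * (b * b) =
          (a * r + b * s) * (h * (a * r + b * s)) - (a ^ 2 * (h * r ^ 2 - u) +
            2 * a * b * (h * r * s - v) + b ^ 2 * (h * s ^ 2 - w)) := by ring
      rw [e]
      exact dvd_sub (hc.mul_right _) (dvd_add (dvd_add (H.rr.mul_left _) (H.rs.mul_left _))
        (H.ss.mul_left _))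
    have d1 : (u * (a * a)).degree < (2 * g + 1 : ℕ) :=
      lt_of_le (mul_lt du (mul_lt da da)) (by omega)
    have d2 : (v * (a * b)).degree < (2 * g + 1 : ℕ) :=
      lt_of_le (mul_lt dv (mul_lt da db)) (by omega)
    have d3 : (w * (b * b)).degree < (2 * g + 1 : ℕ) :=
      lt_of_le (mul_lt dw (mul_lt db db)) (by omega)
    have hP0 : u * (a * a) + 2 * (v * (a * b)) + w * (b * b) = 0 := by
      refine eq_zero_of_dvd_of_degree_lt hP ?_
      rw [degree_eq_natDegree hf.ne_zero, hd]
      have d2' : (2 * (v * (a * b))).degree < (2 * g + 1 : ℕ) := by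
        rw [two_mul]
        exact (degree_add_le _ _).trans_lt (max_lt d2 d2)
      exact (degree_add_le _ _).trans_lt (max_lt ((degree_add_le _ _).trans_lt
        (max_lt d1 d2')) d3)
    have hsq : (u * a + v * b) ^ 2 = f * b ^ 2 := by
      have e : (u * a + v * b) ^ 2 = u * (u * (a * a) + 2 * (v * (a * b)) + w * (b * b)) +
          (v ^ 2 - u * w) * b ^ 2 := by ring
      rw [e, hP0, H.disc, mul_zero, zero_add]
    have hb0 : b = 0 := by
      by_contra hb0
      have h1 := congrArg natDegree hsq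
      rw [natDegree_pow, natDegree_mul hf.ne_zero (pow_ne_zero 2 hb0), natDegree_pow, hd] at h1
      omega
    have ha0 : a = 0 := by
      rw [hb0, mul_zero, add_zero, zero_pow two_ne_zero, mul_zero] at hsq
      have h1 := pow_eq_zero_iff two_ne_zero |>.1 hsq
      exact (mul_eq_zero.1 h1).resolve_left hu
    funext i
    by_cases hi : (i : ℕ) < k
    · have h1 := congrArg (fun p => coeff p (i : ℕ)) ha0
      simp only [ha, finsetSum_coeff, coeff_zero] at h1
      rw [Finset.sum_eq_single i] at h1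
      · rw [if_pos hi, coeff_C_mul, coeff_X_pow, if_pos rfl, mul_one] at h1
        exact h1
      · intro j _ hji
        split_ifs
        · rw [coeff_C_mul, coeff_X_pow, if_neg, mul_zero]
          intro h2
          exact hji (Fin.ext h2.symm)
        · exact coeff_zero _
      · intro h2
        exact absurd (Finset.mem_univ i) h2
    · have h1 := congrArg (fun p => coeff p ((i : ℕ) - k)) hb0
      simp only [hb, finsetSum_coeff, coeff_zero] at h1
      rw [Finset.sum_eq_single i] at h1
      · rw [if_neg hi, coeff_C_mul, coeff_X_pow, if_pos rfl, mul_one] at h1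
        exact h1
      · intro j _ hji
        split_ifs with hj
        · exact coeff_zero _
        · rw [coeff_C_mul, coeff_X_pow, if_neg, mul_zero]
          intro h2
          exact hji (Fin.ext (by omega))
      · intro h2
        exact absurd (Finset.mem_univ i) h2

/-- **The Lagrangian of a divisor.** -/
theorem spl_main {g : ℕ} {f u v : F[X]} (hf : f.Monic) (hd : f.natDegree = 2 * g + 1)
    (hc : IsCoprime u f) (hv : u ∣ v ^ 2 - f) :
    ∃ z : Fin g → F[X],
      (∀ i j, (((-1) ^ u.natDegree * u * z i * z j) %ₘ f).coeff (2 * g) = 0) ∧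
      ∀ c : Fin g → F, f ∣ ∑ i, C (c i) * z i → c = 0 := by
  obtain ⟨w, hw⟩ := hv
  obtain ⟨s, H⟩ := start (v := v) (w := w) hc (by linear_combination hw)
  obtain ⟨r, s, u', v', w', H', h1, h2, h3, h4⟩ := reduce (not_sq_of_odd hd) _ _ _ _ _ _ rfl H
  obtain ⟨z, h5, h6⟩ := lagrangian hf hd H' h1 h2 h3 h4
  refine ⟨z, fun i j => ?_, h6⟩
  obtain ⟨Q, h7, h8⟩ := h5 i j
  rcases neg_one_pow_eq_or F[X] u.natDegree with h9 | h9
  · rw [h9, one_mul]
    exact tp_zero hf hd h7 h8
  · rw [h9]
    refine tp_zero (Q := -Q) hf hd ?_ (by rwa [degree_neg])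
    have e : -1 * u * z i * z j - -Q = -(u * z i * z j - Q) := by ring
    rw [e, dvd_neg]
    exact h7

end Pool.Agent.N488.PQ
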