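import Pool.Agent.N783.PQ.Loc
import Pool.Agent.N488.PQ.Red

/-!
# PQ/SPL: the Lagrangian of a divisor

`spl : S_SPL`, a part of project PQ (helper783).
-/

set_option autoImplicit false

namespace Pool.Agent.N488.PQ

open Pool.Agent.N783.PQ

/-- **The form of a class in the image of the Jacobian has a Lagrangian.** -/
theorem spl : S_SPL := by
  intro F _ _ g f u v hf hd _ hc hv
  exact spl_main hf hd hc hv

end Pool.Agent.N488.PQ
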